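import Pool.Agent.Helper64.HK.Defs

/-!
# Ring homomorphisms and the functions of the chart (`k + 1` factors)
-/

namespace Pool.Agent.Helper94.HK

open Pool.Agent.Helper28.HN (I aff)
open Pool.Agent.Helper64.HK

variable {k m : ℕ} {a : Fin (k + 1) → Fin (m + 1)} {S S' : Type*} [CommRing S] [CommRing S']
  (φ : S →+* S')

theorem map_single (i : I m) : (fun j => φ ((Pi.single i 1 : I m → S) j)) = Pi.single i 1 := by
  funext j
  by_cases h : j = i
  · subst h
    rw [Pi.single_eq_same, Pi.single_eq_same, map_one]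
  · rw [Pi.single_eq_of_ne h, Pi.single_eq_of_ne h, map_zero]

theorem map_update (X : Fin (k + 1) → I m → S) (l : Fin (k + 1)) (v : I m → S) :
    (fun j i => φ (Function.update X l v j i)) =
      Function.update (fun j i => φ (X j i)) l (fun i => φ (v i)) := by
  funext j
  by_cases h : j = l
  · subst h
    rw [Function.update_self, Function.update_self]
  · rw [Function.update_of_ne h, Function.update_of_ne h]

theorem map_Mf (c : Ix a → S) (i : Fin (m + 1)) (U V : Fin (k + 1) → I m → S) :
    φ (Mf c i U V) = Mf (fun e => φ (c e)) i (fun j l => φ (U j l)) (fun j l => φ (V j l)) := by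
  simp only [Mf, map_sum, map_mul, map_prod]

theorem map_Ef (c : Ix a → S) (i : Fin (m + 1)) (X : Fin (k + 1) → I m → S) :
    φ (Ef c i X) = Ef (fun e => φ (c e)) i (fun j l => φ (X j l)) := map_Mf φ c i X X

theorem map_Pf (c : Ix a → S) (j : Fin (k + 1)) (X : Fin (k + 1) → I m → S) (v w : I m → S) :
    φ (Pf c j X v w) = Pf (fun e => φ (c e)) j (fun j l => φ (X j l)) (fun i => φ (v i))
      (fun i => φ (w i)) := by
  simp only [Pf, map_add, map_Mf, map_update]

theorem map_De (c : Ix a → S) (i : Fin (m + 1)) (j : Fin (k + 1)) (X : Fin (k + 1) → I m → S)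
    (ξ : I m → S) : φ (De c i j X ξ) = De (fun e => φ (c e)) i j (fun j l => φ (X j l))
      (fun i => φ (ξ i)) := by
  unfold De
  rw [map_add, map_Mf, map_update]
  split_ifs
  · rw [map_Mf, map_update]
  · rw [map_zero]

theorem map_rf (c : Ix a → S) (j : Fin (k + 1)) (X : Fin (k + 1) → I m → S) (r : Fin m)
    (v : I m → S) : φ (rf c j X r v) = rf (fun e => φ (c e)) j (fun j l => φ (X j l)) r
      (fun i => φ (v i)) := by
  simp only [rf, map_Ef, map_update]

theorem map_Mx (c : Ix a → S) (X : Fin (k + 1) → I m → S) :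
    φ.mapMatrix (Mx c X) = Mx (fun e => φ (c e)) (fun j l => φ (X j l)) := by
  ext r b
  simp only [RingHom.mapMatrix_apply, Matrix.map_apply, Mx, map_rf, map_single]

theorem map_Nx (c : Ix a → S) (j : Fin (k + 1)) (X : Fin (k + 1) → I m → S) :
    φ.mapMatrix (Nx c j X) = Nx (fun e => φ (c e)) j (fun j l => φ (X j l)) := by
  ext r b
  simp only [RingHom.mapMatrix_apply, Matrix.map_apply, Nx, map_rf, map_single]

theorem map_detM (c : Ix a → S) (X : Fin (k + 1) → I m → S) :
    φ (Mx c X).det = (Mx (fun e => φ (c e)) (fun j l => φ (X j l))).det := by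
  rw [RingHom.map_det, map_Mx]

theorem map_mulVec' {b : Type*} [Fintype b] [DecidableEq b] (M : Matrix b b S) (v : b → S) (i : b) :
    φ (M.mulVec v i) = (φ.mapMatrix M).mulVec (fun j => φ (v j)) i := by
  simp only [Matrix.mulVec, dotProduct, map_sum, map_mul, RingHom.mapMatrix_apply, Matrix.map_apply]

theorem map_Y0 (c : Ix a → S) (X : Fin (k + 1) → I m → S) :
    (fun i => φ (Y0 c X i)) = Y0 (fun e => φ (c e)) (fun j l => φ (X j l)) := by
  funext i
  refine Fin.cases ?_ (fun i => Fin.cases ?_ (fun i => ?_) i) i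
  · simp only [Y0, Fin.cons_zero, RingHom.map_det, map_Mx]
  · simp only [Y0, Fin.cons_zero, Fin.cons_succ, map_zero]
  · simp only [Y0, Fin.cons_succ, Pi.neg_apply, map_neg, map_mulVec', RingHom.map_adjugate, map_Mx,
      map_rf, map_single]

theorem map_Y1 (c : Ix a → S) (X : Fin (k + 1) → I m → S) :
    (fun i => φ (Y1 c X i)) = Y1 (fun e => φ (c e)) (fun j l => φ (X j l)) := by
  funext i
  refine Fin.cases ?_ (fun i => Fin.cases ?_ (fun i => ?_) i) i
  · simp only [Y1, Fin.cons_zero, map_zero]
  · simp only [Y1, Fin.cons_zero, Fin.cons_succ, RingHom.map_det, map_Mx]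
  · simp only [Y1, Fin.cons_succ, Pi.neg_apply, map_neg, map_mulVec', RingHom.map_adjugate, map_Mx,
      map_rf, map_single]

theorem map_yh (c : Ix a → S) (X : Fin (k + 1) → I m → S) (z : S) :
    (fun i => φ (yh c X z i)) = yh (fun e => φ (c e)) (fun j l => φ (X j l)) (φ z) := by
  funext i
  have h0 : φ (Y0 c X i) = _ := congrFun (map_Y0 φ c X) i
  have h1 : φ (Y1 c X i) = _ := congrFun (map_Y1 φ c X) i
  simp only [yh, map_add, map_mul, h0, h1]

theorem map_Xz (c : Ix a → S) (X : Fin (k + 1) → I m → S) (z : S) :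
    (fun j l => φ (Xz c X z j l)) = Xz (fun e => φ (c e)) (fun j l => φ (X j l)) (φ z) := by
  unfold Xz
  rw [map_update, map_yh]

theorem map_vh (c : Ix a → S) (j : Fin (k + 1)) (X : Fin (k + 1) → I m → S) :
    (fun i => φ (vh c j X i)) = vh (fun e => φ (c e)) j (fun j l => φ (X j l)) := by
  funext i
  refine Fin.lastCases ?_ (fun i => ?_) i
  · simp only [vh, Fin.snoc_last, RingHom.map_det, map_Nx]
  · simp only [vh, Fin.snoc_castSucc, Pi.neg_apply, map_neg, map_mulVec', RingHom.map_adjugate, map_Nx,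
      map_rf, map_single]

theorem map_xh (c : Ix a → S) (j : Fin (k + 1)) (X : Fin (k + 1) → I m → S) :
    (fun i => φ (xh c j X i)) = xh (fun e => φ (c e)) j (fun j l => φ (X j l)) := by
  funext i
  refine Fin.cases ?_ (fun i => ?_) i
  · simp only [xh, Fin.cons_zero, map_zero]
  · simp only [xh, Fin.cons_succ]
    exact congrFun (map_vh φ c j X) i

theorem map_Fh (c : Ix a → S) (X : Fin (k + 1) → I m → S) (z : S) :
    φ (Fh c X z) = Fh (fun e => φ (c e)) (fun j l => φ (X j l)) (φ z) := by
  simp only [Fh, map_Pf, map_yh]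

theorem map_Ah (c : Ix a → S) (X : Fin (k + 1) → I m → S) :
    φ (Ah c X) = Ah (fun e => φ (c e)) (fun j l => φ (X j l)) := by
  simp only [Ah, map_Pf, map_Y1]

theorem map_Bh (c : Ix a → S) (X : Fin (k + 1) → I m → S) :
    φ (Bh c X) = Bh (fun e => φ (c e)) (fun j l => φ (X j l)) := by
  simp only [Bh, map_Pf, map_Y1, map_Y0]

theorem map_Ch (c : Ix a → S) (X : Fin (k + 1) → I m → S) :
    φ (Ch c X) = Ch (fun e => φ (c e)) (fun j l => φ (X j l)) := by
  simp only [Ch, map_Pf, map_Y0]

theorem map_psh (c : Ix a → S) (j : Fin (k + 1)) (X : Fin (k + 1) → I m → S) (z : S) :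
    φ (psh c j X z) = psh (fun e => φ (c e)) j (fun j l => φ (X j l)) (φ z) := by
  simp only [psh, map_Pf, map_xh, map_Xz]

theorem map_kah (c : Ix a → S) (j : Fin (k + 1)) (X : Fin (k + 1) → I m → S) (z : S) :
    φ (kah c j X z) = kah (fun e => φ (c e)) j (fun j l => φ (X j l)) (φ z) := by
  simp only [kah, map_Pf, map_xh, map_Xz]

theorem map_vp (c : Ix a → S) (X : Fin (k + 1) → I m → S) (e : Fin m → S) :
    (fun i => φ (vp c X e i)) = vp (fun e => φ (c e)) (fun j l => φ (X j l)) (fun r => φ (e r)) := by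
  funext i
  refine Fin.cases ?_ (fun i => Fin.cases ?_ (fun i => ?_) i) i
  · simp only [vp, Fin.cons_zero, map_zero]
  · simp only [vp, Fin.cons_zero, Fin.cons_succ, map_zero]
  · simp only [vp, Fin.cons_succ, Pi.neg_apply, map_neg, map_mulVec', RingHom.map_adjugate, map_Mx]

theorem map_th (c : Ix a → S) (j : Fin (k + 1)) (X : Fin (k + 1) → I m → S) (z : S) :
    φ (th c j X z) = th (fun e => φ (c e)) j (fun j l => φ (X j l)) (φ z) := by
  have h1 : φ (if a j = a 0 then (Mx c X).det else 0) =
      if a j = a 0 then (Mx (fun e => φ (c e)) (fun j l => φ (X j l))).det else 0 := by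
    split_ifs
    · exact map_detM φ c X
    · exact map_zero φ
  have h2 : (fun r : Fin m => φ (if (a 0).succAbove r = a j then (1 : S) else 0)) =
      fun r => if (a 0).succAbove r = a j then 1 else 0 := by
    funext r
    split_ifs
    · exact map_one φ
    · exact map_zero φ
  simp only [th, map_add, h1, map_Pf, map_yh, map_vp, h2]

theorem map_qh (c : Ix a → S) (j : Fin (k + 1)) (X : Fin (k + 1) → I m → S) (ξ : I m → S) (z : S) :
    φ (qh c j X ξ z) = qh (fun e => φ (c e)) j (fun j l => φ (X j l)) (fun i => φ (ξ i)) (φ z) := by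
  simp only [qh, map_mul, map_add, map_ofNat, map_detM, map_Pf, map_yh, map_vp, map_De, map_Xz]

theorem map_qa (c : Ix a → S) (j : Fin (k + 1)) (X : Fin (k + 1) → I m → S) (ξ : I m → S) :
    φ (qa c j X ξ) = qa (fun e => φ (c e)) j (fun j l => φ (X j l)) (fun i => φ (ξ i)) := by
  simp only [qa, map_mul, map_add, map_ofNat, map_detM, map_Pf, map_Y1, map_vp, map_De, map_update]

theorem map_psP (c : Ix a → S) (j : Fin (k + 1)) (X : Fin (k + 1) → I m → S) :
    (psP c j X).map φ = psP (fun e => φ (c e)) j (fun j l => φ (X j l)) := by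
  have h := map_psh (Polynomial.mapRingHom φ) (fun e => Polynomial.C (c e)) j
    (fun i l => Polynomial.C (X i l)) Polynomial.X
  simpa only [psP, Polynomial.coe_mapRingHom, Polynomial.map_C, Polynomial.map_X] using h

theorem psP_eval (c : Ix a → S) (j : Fin (k + 1)) (X : Fin (k + 1) → I m → S) (z : S) :
    (psP c j X).eval z = psh c j X z := by
  have h := map_psh (Polynomial.evalRingHom z) (fun e => Polynomial.C (c e)) j
    (fun i l => Polynomial.C (X i l)) Polynomial.X
  simpa only [psP, Polynomial.coe_evalRingHom, Polynomial.eval_C, Polynomial.eval_X] using h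

theorem map_aff (u : Fin (m + 1) → S) : (fun i => φ (aff u i)) = aff (fun i => φ (u i)) := by
  funext i
  refine Fin.cases ?_ (fun i => ?_) i
  · simp [aff]
  · simp [aff]

theorem map_ct (u : Fin k × Fin (m + 1) → S) :
    (fun j l => φ (ct u j l)) = ct (fun q => φ (u q)) := by
  funext j
  refine Fin.cases ?_ (fun j => ?_) j
  · funext l
    simp [ct]
  · simp only [ct, Fin.cons_succ]
    exact map_aff φ _

end Pool.Agent.Helper94.HK
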