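import Pool.Agent.Helper24.HK.Cfg
import Pool.Agent.Helper64.HK.Lin
import Pool.Agent.Helper94.HN.Ref

/-!
# The reference configuration of the dynamics (`k + 1` factors)
-/

namespace Pool.Agent.Helper94.HK.Fr

open Pool.Agent.Helper28.HN (I aff)
open Pool.Agent.Helper64.HK Pool.Agent.Helper24.HM Pool.Agent.Helper24.HK
open Pool.Agent.Helper94.HN (norm_two norm_add_le' norm_mul_le' norm_add_eq unit_prod)

theorem Fh_eq {k m : ℕ} {a : Fin (k + 1) → Fin (m + 1)} {S : Type*} [CommRing S] (c : Ix a → S)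
    (X : Fin (k + 1) → I m → S) (z : S) : Fh c X z = Ah c X * z ^ 2 + 2 * Bh c X * z + Ch c X := by
  have h : yh c X z = fun i => 1 * Y0 c X i + z * Y1 c X i := by
    funext i
    rw [one_mul]
    rfl
  rw [Fh, h, Pf_comb_l, Pf_comb_r, Pf_comb_r, Pf_symm c 0 X (Y1 c X) (Y0 c X)]
  unfold Ah Bh Ch
  ring

variable {p : ℕ} [Fact p.Prime] {k m : ℕ} {a : Fin (k + 1) → Fin (m + 1)}

theorem tr_tr' {S : Type*} (u : Fin k × Fin (m + 1) → S) : tr (tr' u) = u := by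
  funext q
  simp only [tr, tr', Equiv.symm_apply_apply]

/-- The factors of `Pp` are units. -/
theorem units_of_Pp (c : Ix a → ℤ_[p]) (s : Sel k m) (x : Un k m → ℤ_[p]) (h : IsUnit (Pp c s x)) :
    ‖(Mx c (pt x)).det‖ = 1 ∧
    (∀ b b' : Lt k m, b ≠ b' → ‖x (.inr b) - x (.inr b')‖ = 1) ∧
    (∀ b : Lt k m, ‖(Nx c (s.ty b).succ (Xz c (pt x) (x (.inr b)))).det‖ = 1) ∧
    (∀ q : Fin k × Fin (m + 1), ‖kah c q.1.succ (pt x) (x (.inr (some q)))‖ = 1) ∧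
    (∀ q : Fin k × Fin (m + 1), ‖th c q.1.succ (pt x) (x (.inr (some q)))‖ = 1) ∧
    (∀ q : Fin k × Fin (m + 1),
      ‖(psP c q.1.succ (pt x)).derivative.eval (x (.inr (some q)))‖ = 1) ∧
    (∀ b b' : Lt k m, b ≠ b' → ¬ (b = some s.m' ∧ b' = some s.j) →
      ‖qh c (s.ty b).succ (pt x) (xz c s x b) (x (.inr b'))‖ = 1) ∧
    ∀ l : Fin k, ‖(Vm c x l).det‖ = 1 := by
  unfold Pp at h
  rw [IsUnit.mul_iff, IsUnit.mul_iff, IsUnit.mul_iff, IsUnit.mul_iff, IsUnit.mul_iff,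
    IsUnit.mul_iff, IsUnit.mul_iff] at h
  obtain ⟨⟨⟨⟨⟨⟨⟨h1, h2⟩, h3⟩, h4⟩, h4'⟩, h5⟩, h6⟩, h7⟩ := h
  refine ⟨PadicInt.isUnit_iff.1 h1, fun b b' hab => ?_,
    fun b => PadicInt.isUnit_iff.1 (unit_prod h3 b),
    fun q => PadicInt.isUnit_iff.1 (unit_prod h4 q), fun q => PadicInt.isUnit_iff.1 (unit_prod h4' q),
    fun q => PadicInt.isUnit_iff.1 (unit_prod h5 q), fun b b' hab hn => ?_,
    fun l => PadicInt.isUnit_iff.1 (unit_prod h7 l)⟩
  · have h8 := unit_prod (unit_prod h2 b) b'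
    rw [if_neg hab] at h8
    exact PadicInt.isUnit_iff.1 h8
  · have h8 := unit_prod (unit_prod h6 b) b'
    rw [if_neg (not_or.2 ⟨hab, hn⟩)] at h8
    exact PadicInt.isUnit_iff.1 h8

/-- The form is small at the base point. -/
theorem norm_Fh_le (c : Ix a → ℤ_[p]) (s : Sel k m) (x : Un k m → ℤ_[p]) (h : Cfg c s x) :
    ‖Ch c (pt x)‖ ≤ (p : ℝ) ^ (-2 : ℤ) ∧ ∀ z, ‖Fh c (pt x) z‖ ≤ (p : ℝ) ^ (-2 : ℤ) := by
  have h1 : Ch c (pt x) = -(x (.inr none) ^ 2 * Ah c (pt x) +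
      (2 * x (.inr none)) * Bh c (pt x)) := by
    have h2 := h.F0
    rw [Fh_eq] at h2
    linear_combination h2
  have h3 : ‖Ch c (pt x)‖ ≤ (p : ℝ) ^ (-2 : ℤ) := by
    rw [h1, norm_neg]
    exact norm_add_le' (norm_mul_le' _ h.hA) (norm_mul_le' _ h.hB)
  refine ⟨h3, fun z => ?_⟩
  rw [Fh_eq]
  have h4 : Ah c (pt x) * z ^ 2 + 2 * Bh c (pt x) * z + Ch c (pt x) =
      z ^ 2 * Ah c (pt x) + (2 * z) * Bh c (pt x) + Ch c (pt x) := by ring
  rw [h4]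
  exact norm_add_le' (norm_add_le' (norm_mul_le' _ h.hA) (norm_mul_le' _ h.hB)) h3

theorem exists_ref0 (hp : p ≠ 2) (c : Ix a → ℤ_[p]) (s : Sel k m) (x : Un k m → ℤ_[p])
    (h : Cfg c s x) (L : LocM p (k * (m + 1)) (Fin k)) (hL : IsLoc c L) :
    ∃ R : RefM L (Lt k m), IsRef s x R := by
  obtain ⟨hD, hz, hN, hk, hr, hps, hq, hV⟩ := units_of_Pp c s x h.hP
  obtain ⟨hCs, hFs⟩ := norm_Fh_le c s x h
  have hp1 : (1 : ℝ) < p := by exact_mod_cast (Fact.out : p.Prime).one_lt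
  have hp12 : (p : ℝ) ^ (-2 : ℤ) < (p : ℝ) ^ (-1 : ℤ) := zpow_lt_zpow_right₀ hp1 (by norm_num)
  have hp01 : (p : ℝ) ^ (-1 : ℤ) < 1 := zpow_lt_one_of_neg₀ hp1 (by norm_num)
  have hpt : ct (tr (tr' fun q => x (.inl q))) = pt x := by
    rw [tr_tr']
    rfl
  have hdF : ∀ b b' : Lt k m, ∃ d, L.dF (tr' fun q => x (.inl q))
      (L.xi (s.ty b) (tr' fun q => x (.inl q)) (x (.inr b))) (x (.inr b')) =
      qh c (s.ty b).succ (pt x) (xz c s x b) (x (.inr b')) + d * Fh c (pt x) (x (.inr b')) := by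
    intro b b'
    rw [hL.hxi, hpt]
    obtain ⟨d, hd1, -⟩ := hL.hd (s.ty b) (tr' fun q => x (.inl q))
      (vh c (s.ty b).succ (Xz c (pt x) (x (.inr b))))
    refine ⟨d, ?_⟩
    rw [hd1, hpt]
    rfl
  have hsm : ∀ (d z : ℤ_[p]), ‖d * Fh c (pt x) z‖ ≤ (p : ℝ) ^ (-2 : ℤ) :=
    fun d z => norm_mul_le' _ (hFs z)
  refine ⟨⟨tr' fun q => x (.inl q), fun b => x (.inr b), s.ty, none, some s.j, some s.m',
    some s.l, ?_, ?_, ?_, ?_, ?_, ?_, hz, ?_, ?_, ?_, ?_, ?_, ?_, ?_, ?_⟩,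
    ⟨rfl, rfl, rfl, rfl, rfl, rfl, rfl⟩⟩
  · exact fun h' => s.hjm (Option.some_injective _ h')
  · exact fun h' => s.hml (Option.some_injective _ h')
  · exact fun h' => s.hlj (Option.some_injective _ h')
  · exact (Option.some_ne_none _).symm
  · exact (Option.some_ne_none _).symm
  · exact (Option.some_ne_none _).symm
  · intro b _
    rw [hL.hpsi, hpt, h.psi, mul_zero]
  · intro b hb
    obtain ⟨q, rfl⟩ := Option.ne_none_iff_exists'.1 hb
    have h1 : psh c (s.ty (some q)).succ (ct (tr (tr' fun q => x (.inl q)))) (x (.inr (some q))) = 0 := by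
      rw [hpt]
      exact h.psi _
    rw [hL.hsl _ _ _ h1, hpt, norm_mul, norm_mul, norm_two hp, one_mul]
    have h2 := hr q
    have h3 := hps q
    show ‖th c q.1.succ (pt x) (x (.inr (some q)))‖ * ‖(psP c q.1.succ (pt x)).derivative.eval
      (x (.inr (some q)))‖ = 1
    rw [h2, h3, one_mul]
  · intro b hb
    obtain ⟨q, rfl⟩ := Option.ne_none_iff_exists'.1 hb
    rw [hL.hkap, hpt, norm_mul]
    show ‖th c q.1.succ (pt x) (x (.inr (some q)))‖ * ‖kah c q.1.succ (pt x) (x (.inr (some q)))‖ = 1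
    rw [hr q, hk q, one_mul]
  · intro b b' hab hb' hn
    obtain ⟨d, hd1⟩ := hdF b' b
    rw [hd1]
    have h2 : ‖qh c (s.ty b').succ (pt x) (xz c s x b') (x (.inr b))‖ = 1 := by
      refine hq b' b (Ne.symm hab) ?_
      rintro ⟨h3, h4⟩
      rcases hn with h5 | h5
      · exact h5 h4
      · exact h5 h3
    rw [norm_add_eq, h2]
    rw [h2]
    exact (hsm _ _).trans_lt (hp12.trans hp01)
  · obtain ⟨d, hd1⟩ := hdF (some s.m') (some s.j)
    have h3 : ‖qh c (s.ty (some s.m')).succ (pt x) (xz c s x (some s.m')) (x (.inr (some s.j)))‖ =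
      (p : ℝ) ^ (-1 : ℤ) := h.hq
    rw [hd1, norm_add_eq, h3]
    rw [h3]
    exact (hsm _ _).trans_lt hp12
  · rw [hL.hA, hpt]
    exact norm_mul_le' _ h.hA
  · rw [hL.hB, hpt]
    exact norm_mul_le' _ (norm_mul_le' _ h.hB)
  · rw [hL.hC, hpt]
    exact norm_mul_le' _ hCs

end Pool.Agent.Helper94.HK.Fr
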