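import Pool.Agent.Helper94.HK.ExLoc
import Pool.Agent.Helper94.HK.Ref

/-!
# DIFF, LOC and REF in the form of the frames
-/

namespace Pool.Agent.Helper94.HK.Fr

open Pool.Agent.Helper28.HN (I aff)
open Pool.Agent.Helper64.HK Pool.Agent.Helper24.HM Pool.Agent.Helper24.HK

theorem diff_F {k m : ℕ} {a : Fin (k + 1) → Fin (m + 1)} {S : Type*} [CommRing S] (c : Ix a → S)
    (j : Fin k) (X : Fin (k + 1) → I m → S) (ξ : I m → S) :
    ∃ d : S, (∀ z, (Mx c X).det * ((Fh (fun e => Polynomial.C (c e))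
      (fun l i => Polynomial.C (X l i) + if l = j.succ then Polynomial.X * Polynomial.C (ξ i) else 0)
        (Polynomial.C z)).derivative.eval 0) = qh c j.succ X ξ z + 2 * d * Fh c X z) ∧
    (Mx c X).det * ((Ah (fun e => Polynomial.C (c e))
      (fun l i => Polynomial.C (X l i) +
        if l = j.succ then Polynomial.X * Polynomial.C (ξ i) else 0)).derivative.eval 0) =
      qa c j.succ X ξ + 2 * d * Ah c X := by
  have h : (fun (l : Fin (k + 1)) (i : I m) => (Polynomial.C (X l i) +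
      if l = j.succ then Polynomial.X * Polynomial.C (ξ i) else 0 : Polynomial S)) =
      Pool.Agent.Helper94.HK.XT X j.succ ξ := by
    funext l i
    unfold Pool.Agent.Helper94.HK.XT
    by_cases h : l = j.succ
    · subst h
      rw [if_pos rfl, Function.update_self]
    · rw [if_neg h, Function.update_of_ne h, add_zero]
  obtain ⟨d, hd⟩ := Pool.Agent.Helper94.HK.diff_F c X j.succ ξ (Fin.succ_ne_zero j)
  refine ⟨d, fun z => ?_, ?_⟩
  · rw [h]
    exact (hd z).1
  · rw [h]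
    exact (hd 0).2

theorem exists_loc {p : ℕ} [Fact p.Prime] {k m : ℕ} {a : Fin (k + 1) → Fin (m + 1)}
    (c : Ix a → ℤ_[p]) : ∃ L : LocM p (k * (m + 1)) (Fin k), IsLoc c L :=
  ⟨Pool.Agent.Helper94.HK.loc c, {
    hA := Pool.Agent.Helper94.HK.loc_A c
    hB := Pool.Agent.Helper94.HK.loc_B c
    hC := Pool.Agent.Helper94.HK.loc_C c
    hxi := Pool.Agent.Helper94.HK.loc_xi c
    hpsi := Pool.Agent.Helper94.HK.loc_psi c
    hkap := Pool.Agent.Helper94.HK.loc_kap c
    hsl := Pool.Agent.Helper94.HK.loc_sl c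
    hd := Pool.Agent.Helper94.HK.loc_dir c }⟩

theorem exists_ref {p : ℕ} [Fact p.Prime] (hp : p ≠ 2) {k m : ℕ} {a : Fin (k + 1) → Fin (m + 1)}
    (c : Ix a → ℤ_[p]) (s : Sel k m) (x : Un k m → ℤ_[p]) (h : Cfg c s x)
    (L : LocM p (k * (m + 1)) (Fin k)) (hL : IsLoc c L) : ∃ R : RefM L (Lt k m), IsRef s x R :=
  exists_ref0 hp c s x h L hL

end Pool.Agent.Helper94.HK.Fr
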