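import Pool.Agent.Helper64.HK.Lin
import Mathlib.Algebra.DualNumber

/-!
# The derivative of the form on the line (`k + 1` factors)
-/

namespace Pool.Agent.Helper94.HK

open Pool.Agent.Helper28.HN (I aff)
open Pool.Agent.Helper64.HK
open Function

variable {k m : ℕ} {a : Fin (k + 1) → Fin (m + 1)} {S : Type*} [CommRing S] (c : Ix a → S)

/-! ## The line in the factor `0` -/

theorem rf_comb (X : Fin (k + 1) → I m → S) (j : Fin (k + 1)) (r : Fin m) (α β : S)
    (v w : I m → S) : rf c j X r (fun l => α * v l + β * w l) =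
      α * rf c j X r v + β * rf c j X r w :=
  Ef_comb c (Fin.succAbove_ne _ _).symm X α β v w

theorem rf_add (X : Fin (k + 1) → I m → S) (j : Fin (k + 1)) (r : Fin m) (v w : I m → S) :
    rf c j X r (v + w) = rf c j X r v + rf c j X r w := by
  have h := rf_comb c X j r 1 1 v w
  simp only [one_mul] at h
  exact h

theorem rf_smul (X : Fin (k + 1) → I m → S) (j : Fin (k + 1)) (r : Fin m) (α : S) (v : I m → S) :
    rf c j X r (α • v) = α * rf c j X r v := by
  have h := rf_comb c X j r α 0 v v
  rw [zero_mul, add_zero] at h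
  rw [← h]
  congr 1
  funext l
  simp

/-- The linear forms as linear maps. -/
noncomputable def rL (X : Fin (k + 1) → I m → S) (j : Fin (k + 1)) (r : Fin m) :
    (I m → S) →ₗ[S] S where
  toFun v := rf c j X r v
  map_add' := rf_add c X j r
  map_smul' α v := by rw [rf_smul, RingHom.id_apply, smul_eq_mul]

theorem rf_sum (X : Fin (k + 1) → I m → S) (j : Fin (k + 1)) (r : Fin m) (y : I m → S) :
    rf c j X r y = ∑ i, rf c j X r (Pi.single i 1) * y i := by
  have h : rf c j X r y = rL c X j r y := rfl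
  rw [h, LinearMap.pi_apply_eq_sum_univ]
  refine Finset.sum_congr rfl fun i _ => ?_
  rw [smul_eq_mul, mul_comm]
  congr 1
  show rf c j X r _ = _
  congr 1
  funext l
  by_cases hl : i = l
  · subst hl
    simp
  · rw [if_neg hl, Pi.single_eq_of_ne (Ne.symm hl)]

theorem rf_split (X : Fin (k + 1) → I m → S) (r : Fin m) (y : I m → S) :
    rf c 0 X r y = rf c 0 X r (Pi.single 0 1) * y 0 + rf c 0 X r (Pi.single 1 1) * y 1 +
      (Mx c X).mulVec (fun b => y b.succ.succ) r := by
  rw [rf_sum, Fin.sum_univ_succ, Fin.sum_univ_succ]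
  exact (add_assoc (G := S) _ _ _).symm

theorem mulVec_adj (M : Matrix (Fin m) (Fin m) S) (v : Fin m → S) :
    M.mulVec (M.adjugate.mulVec v) = M.det • v := by
  rw [Matrix.mulVec_mulVec, Matrix.mul_adjugate, Matrix.smul_mulVec, Matrix.one_mulVec]

theorem adj_mulVec (M : Matrix (Fin m) (Fin m) S) (v : Fin m → S) :
    M.adjugate.mulVec (M.mulVec v) = M.det • v := by
  rw [Matrix.mulVec_mulVec, Matrix.adjugate_mul, Matrix.smul_mulVec, Matrix.one_mulVec]

theorem one_eq : (1 : I m) = Fin.succ 0 := rfl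

variable (X : Fin (k + 1) → I m → S)

theorem Y0_zero : Y0 c X 0 = (Mx c X).det := by
  rw [Y0, Fin.cons_zero]

theorem Y0_one : Y0 c X 1 = 0 := by
  rw [one_eq, Y0, Fin.cons_succ, Fin.cons_zero]

theorem Y1_zero : Y1 c X 0 = 0 := by
  rw [Y1, Fin.cons_zero]

theorem Y1_one : Y1 c X 1 = (Mx c X).det := by
  rw [one_eq, Y1, Fin.cons_succ, Fin.cons_zero]

theorem rf_Y0 (r : Fin m) : rf c 0 X r (Y0 c X) = 0 := by
  rw [rf_split, Y0_zero, Y0_one]
  have h : (fun b : Fin m => Y0 c X b.succ.succ) =
      - ((Mx c X).adjugate.mulVec fun r => rf c 0 X r (Pi.single 0 1)) := by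
    funext b
    simp only [Y0, Fin.cons_succ]
  rw [h, Matrix.mulVec_neg, mulVec_adj]
  simp only [Pi.neg_apply, Pi.smul_apply, smul_eq_mul]
  ring

theorem rf_Y1 (r : Fin m) : rf c 0 X r (Y1 c X) = 0 := by
  rw [rf_split, Y1_zero, Y1_one]
  have h : (fun b : Fin m => Y1 c X b.succ.succ) =
      - ((Mx c X).adjugate.mulVec fun r => rf c 0 X r (Pi.single 1 1)) := by
    funext b
    simp only [Y1, Fin.cons_succ]
  rw [h, Matrix.mulVec_neg, mulVec_adj]
  simp only [Pi.neg_apply, Pi.smul_apply, smul_eq_mul]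
  ring

theorem rf_yh (r : Fin m) (z : S) : rf c 0 X r (yh c X z) = 0 := by
  have h : yh c X z = fun i => 1 * Y0 c X i + z * Y1 c X i := by
    funext i
    rw [one_mul]
    rfl
  rw [h, rf_comb, rf_Y0, rf_Y1, mul_zero, mul_zero, add_zero]

theorem yh_zero (z : S) : yh c X z 0 = (Mx c X).det := by
  rw [yh, Y0_zero, Y1_zero, mul_zero, add_zero]

theorem yh_one (z : S) : yh c X z 1 = z * (Mx c X).det := by
  rw [yh, Y0_one, Y1_one, zero_add]

/-- `w` with `L_r (w) = - g r`. -/
theorem det_mul_gen (w : I m → S) (g : Fin m → S) (h : ∀ r, rf c 0 X r w = - g r) (i : I m) :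
    (Mx c X).det * w i = w 0 * Y0 c X i + w 1 * Y1 c X i + vp c X g i := by
  refine Fin.cases ?_ (fun j => Fin.cases ?_ (fun b => ?_) j) i
  · simp only [Y0, Y1, vp, Fin.cons_zero]
    ring
  · simp only [Y0, Y1, vp, Fin.cons_succ, Fin.cons_zero]
    have e1 : (Fin.succ 0 : Fin (m + 2)) = 1 := rfl
    rw [e1]
    ring
  · simp only [Y0, Y1, vp, Fin.cons_succ, Pi.neg_apply]
    have h1 : (Mx c X).mulVec (fun b : Fin m => w b.succ.succ) =
        (- w 0) • (fun r => rf c 0 X r (Pi.single 0 1)) +
          (- w 1) • (fun r => rf c 0 X r (Pi.single 1 1)) + (-1 : S) • g := by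
      funext r
      have h2 := rf_split c X r w
      rw [h r] at h2
      simp only [Pi.add_apply, Pi.smul_apply, smul_eq_mul]
      linear_combination -h2
    have h4 : (Mx c X).det * w b.succ.succ =
        (Mx c X).adjugate.mulVec ((Mx c X).mulVec (fun b : Fin m => w b.succ.succ)) b := by
      rw [adj_mulVec]
      rfl
    rw [h4, h1, Matrix.mulVec_add, Matrix.mulVec_add, Matrix.mulVec_smul, Matrix.mulVec_smul,
      Matrix.mulVec_smul]
    simp only [Pi.add_apply, Pi.smul_apply, smul_eq_mul]
    ring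

/-! ## Taylor -/

/-- Taylor's formula in the factor `j`. -/
theorem Ef_taylor (i : Fin (m + 1)) (j : Fin (k + 1)) (e : S) (ξ : I m → S) :
    Ef c i (update X j fun l => X j l + e * ξ l) = Ef c i X + e * De c i j X ξ +
      e ^ 2 * if a j = i then Ef c i (update X j ξ) else 0 := by
  by_cases h : a j = i
  · subst h
    have h1 := Ef_quad c j X 1 e (X j) ξ
    simp only [one_mul, update_eq_self, one_pow] at h1
    rw [h1, De_eq, if_pos rfl]
  · have h1 := Ef_comb c h X 1 e (X j) ξ
    simp only [one_mul, update_eq_self] at h1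
    rw [h1, De_ne c h, if_neg h, mul_zero, add_zero]

/-! ## Dual numbers -/

section dual

/-- Constants. -/
def io (S : Type*) [CommRing S] : S →+* DualNumber S := TrivSqZeroExt.inlHom S S

/-- The value. -/
def fs (S : Type*) [CommRing S] : DualNumber S →+* S where
  toFun := TrivSqZeroExt.fst
  map_one' := rfl
  map_zero' := rfl
  map_add' _ _ := rfl
  map_mul' x y := TrivSqZeroExt.fst_mul x y

/-- The element of square zero. -/
def ep (S : Type*) [CommRing S] : DualNumber S := DualNumber.eps

/-- The derivative. -/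
def sd (x : DualNumber S) : S := TrivSqZeroExt.snd x

theorem fs_io (x : S) : fs S (io S x) = x := rfl
theorem sd_io (x : S) : sd (io S x) = 0 := rfl
theorem fs_ep : fs S (ep S) = 0 := rfl
theorem sd_ep : sd (ep S) = 1 := rfl
theorem sd_add (x y : DualNumber S) : sd (x + y) = sd x + sd y := rfl
theorem sd_mul (x y : DualNumber S) : sd (x * y) = fs S x * sd y + sd x * fs S y :=
  DualNumber.snd_mul x y
theorem ep_sq : ep S ^ 2 = 0 := DualNumber.eps_pow_two

theorem dual_eq (x : DualNumber S) : x = io S (fs S x) + ep S * io S (sd x) := by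
  refine TrivSqZeroExt.ext ?_ ?_
  · show fs S x = fs S (io S (fs S x) + ep S * io S (sd x))
    rw [map_add, map_mul, fs_io, fs_io, fs_ep, zero_mul, add_zero]
  · show sd x = sd (io S (fs S x) + ep S * io S (sd x))
    rw [sd_add, sd_mul, sd_io, fs_ep, sd_ep, fs_io, sd_io]
    ring

/-- The polynomials as dual numbers. -/
noncomputable def du (S : Type*) [CommRing S] : Polynomial S →+* DualNumber S :=
  Polynomial.eval₂RingHom (io S) (ep S)

theorem du_C (x : S) : du S (Polynomial.C x) = io S x := by simp [du]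

theorem du_X : du S Polynomial.X = ep S := by simp [du]

theorem fs_du (P : Polynomial S) : fs S (du S P) = P.eval 0 := by
  induction P using Polynomial.induction_on' with
  | add p q hp hq => rw [map_add, map_add, hp, hq, Polynomial.eval_add]
  | monomial n b =>
    rw [← Polynomial.C_mul_X_pow_eq_monomial, map_mul, map_mul, map_pow, map_pow, du_C, du_X, fs_io,
      fs_ep, Polynomial.eval_mul, Polynomial.eval_C, Polynomial.eval_pow, Polynomial.eval_X]

theorem sd_du (P : Polynomial S) : sd (du S P) = P.derivative.eval 0 := by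
  induction P using Polynomial.induction_on' with
  | add p q hp hq => rw [map_add, sd_add, hp, hq, map_add, Polynomial.eval_add]
  | monomial n b =>
    rw [← Polynomial.C_mul_X_pow_eq_monomial, map_mul, map_pow, du_C, du_X, sd_mul, fs_io, sd_io,
      zero_mul, add_zero]
    rcases n with _ | _ | n
    · have h : sd (1 : DualNumber S) = 0 := rfl
      simp [h]
    · simp [sd_ep]
    · have h : ep S ^ (n + 1 + 1) = 0 := by
        rw [pow_succ, pow_succ, mul_assoc, ← pow_two, ep_sq, mul_zero]
      have h' : sd (0 : DualNumber S) = 0 := rfl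
      rw [h, h', mul_zero]
      simp

variable (j : Fin (k + 1)) (ξ : I m → S)

/-- The point moved in the factor `j`. -/
def Xe : Fin (k + 1) → I m → DualNumber S :=
  update (fun l i => io S (X l i)) j fun i => io S (X j i) + ep S * io S (ξ i)

theorem fs_Xe : (fun l i => fs S (Xe X j ξ l i)) = X := by
  funext l i
  by_cases h : l = j
  · subst h
    simp only [Xe, update_self, map_add, map_mul, fs_io, fs_ep, zero_mul, add_zero]
  · simp only [Xe, update_of_ne h, fs_io]

theorem upd_Xe (hj : j ≠ 0) (v : I m → S) : update (Xe X j ξ) 0 (fun i => io S (v i)) =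
    update (fun l i => io S (update X 0 v l i)) j
      fun i => io S (update X 0 v j i) + ep S * io S (ξ i) := by
  funext l
  by_cases h : l = 0
  · subst h
    rw [update_self, update_of_ne hj.symm, update_self]
  · rw [update_of_ne h]
    by_cases h' : l = j
    · subst h'
      rw [Xe, update_self, update_self, update_of_ne hj]
    · rw [Xe, update_of_ne h', update_of_ne h', update_of_ne h]

theorem Ef_Xe (hj : j ≠ 0) (i : Fin (m + 1)) (v : I m → S) :
    Ef (fun e => io S (c e)) i (update (Xe X j ξ) 0 fun i => io S (v i)) =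
      io S (Ef c i (update X 0 v)) + ep S * io S (De c i j (update X 0 v) ξ) := by
  rw [upd_Xe X j ξ hj v]
  have h := Ef_taylor (fun e => io S (c e)) (fun l i => io S (update X 0 v l i)) i j (ep S)
    (fun i => io S (ξ i))
  rw [ep_sq, zero_mul, add_zero] at h
  rw [h, map_Ef, map_De]

/-- A family of vectors on the lines with `y 0 = s D`, `y 1 = t D`. -/
theorem dual_form (hj : j ≠ 0) (s t : S) (y : I m → DualNumber S) (y0 : I m → S)
    (hl : ∀ r, rf (fun e => io S (c e)) 0 (Xe X j ξ) r y = 0)
    (h0 : y 0 = io S s * (Mx (fun e => io S (c e)) (Xe X j ξ)).det)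
    (h1 : y 1 = io S t * (Mx (fun e => io S (c e)) (Xe X j ξ)).det)
    (hy : ∀ i, fs S (y i) = y0 i) (hy0 : ∀ i, y0 i = s * Y0 c X i + t * Y1 c X i) :
    (Mx c X).det * sd (Pf (fun e => io S (c e)) 0 (Xe X j ξ) y y) =
      2 * ((Mx c X).det * De c (a 0) j (update X 0 y0) ξ +
        Pf c 0 X y0 (vp c X fun r => De c ((a 0).succAbove r) j (update X 0 y0) ξ)) +
      2 * sd (Mx (fun e => io S (c e)) (Xe X j ξ)).det * Pf c 0 X y0 y0 := by
  set w : I m → S := fun i => sd (y i) with hw
  have e1 : y = fun i => 1 * io S (y0 i) + ep S * io S (w i) := by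
    funext i
    rw [one_mul, ← hy i]
    exact dual_eq (y i)
  have e4 : ∀ r, rf c 0 X r w = - De c ((a 0).succAbove r) j (update X 0 y0) ξ := by
    intro r
    have h2 := congrArg sd (hl r)
    have h3 : sd (0 : DualNumber S) = 0 := rfl
    rw [e1, rf_comb, one_mul] at h2
    unfold rf at h2
    rw [Ef_Xe c X j ξ hj, Ef_Xe c X j ξ hj, sd_add, sd_add, sd_mul, sd_mul, sd_io, sd_io, fs_ep,
      sd_ep, map_add, map_mul, fs_io, fs_io, fs_io, fs_ep, h3] at h2
    unfold rf
    linear_combination h2
  have e5 : ∀ i, (Mx c X).det * w i =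
      sd (Mx (fun e => io S (c e)) (Xe X j ξ)).det * y0 i +
        1 * vp c X (fun r => De c ((a 0).succAbove r) j (update X 0 y0) ξ) i := by
    intro i
    rw [det_mul_gen c X w _ e4 i]
    have h2 : w 0 = s * sd (Mx (fun e => io S (c e)) (Xe X j ξ)).det := by
      rw [hw]
      simp only [h0, sd_mul, fs_io, sd_io, zero_mul, add_zero]
    have h3 : w 1 = t * sd (Mx (fun e => io S (c e)) (Xe X j ξ)).det := by
      rw [hw]
      simp only [h1, sd_mul, fs_io, sd_io, zero_mul, add_zero]
    rw [h2, h3, hy0]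
    ring
  have e6 : (Mx c X).det * Pf c 0 X y0 w =
      sd (Mx (fun e => io S (c e)) (Xe X j ξ)).det * Pf c 0 X y0 y0 +
        Pf c 0 X y0 (vp c X fun r => De c ((a 0).succAbove r) j (update X 0 y0) ξ) := by
    have h2 := Pf_comb_r c 0 X (sd (Mx (fun e => io S (c e)) (Xe X j ξ)).det) 1 y0 y0
      (vp c X fun r => De c ((a 0).succAbove r) j (update X 0 y0) ξ)
    rw [one_mul] at h2
    rw [← h2, ← Pf_smul_r]
    exact congrArg (Pf c 0 X y0) (funext e5)
  have e7 : sd (Pf (fun e => io S (c e)) 0 (Xe X j ξ) y y) =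
      2 * (De c (a 0) j (update X 0 y0) ξ + Pf c 0 X y0 w) := by
    have h2 : fs S (Pf (fun e => io S (c e)) 0 (Xe X j ξ) (fun i => io S (y0 i))
        fun i => io S (w i)) = Pf c 0 X y0 w := by
      rw [map_Pf, fs_Xe]
      rfl
    rw [Pf_self, e1, Ef_quad, ep_sq, zero_mul, add_zero, one_pow, one_mul, one_mul,
      Ef_Xe c X j ξ hj, two_mul, sd_add, sd_add, sd_add, sd_mul, sd_mul, sd_io, sd_io, fs_ep, sd_ep,
      h2, fs_io]
    ring
  rw [e7]
  linear_combination 2 * e6

end dual

section main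

variable (j : Fin (k + 1)) (ξ : I m → S)

/-- The line in the factor `j` through the point in the direction `ξ`. -/
noncomputable def XT : Fin (k + 1) → I m → Polynomial S :=
  update (fun l i => Polynomial.C (X l i)) j
    fun i => Polynomial.C (X j i) + Polynomial.X * Polynomial.C (ξ i)

theorem du_XT : (fun l i => du S (XT X j ξ l i)) = Xe X j ξ := by
  funext l i
  by_cases h : l = j
  · subst h
    simp only [XT, Xe, update_self, map_add, map_mul, du_C, du_X]
  · simp only [XT, Xe, update_of_ne h, du_C]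

/-- `D ∂_ξ Fh = qh + 2 (∂_ξ D) Fh`. -/
theorem diff_F (hj : j ≠ 0) : ∃ d : S, ∀ z,
    (Mx c X).det * ((Fh (fun e => Polynomial.C (c e)) (XT X j ξ)
      (Polynomial.C z)).derivative.eval 0) = qh c j X ξ z + 2 * d * Fh c X z ∧
    (Mx c X).det * ((Ah (fun e => Polynomial.C (c e)) (XT X j ξ)).derivative.eval 0) =
      qa c j X ξ + 2 * d * Ah c X := by
  refine ⟨sd (Mx (fun e => io S (c e)) (Xe X j ξ)).det, fun z => ⟨?_, ?_⟩⟩
  · rw [← sd_du, map_Fh, du_XT, du_C]
    simp only [du_C]
    refine dual_form c X j ξ hj 1 z (yh (fun e => io S (c e)) (Xe X j ξ) (io S z)) (yh c X z)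
      (fun r => rf_yh _ _ r _) ?_ ?_ (fun i => ?_) (fun i => ?_)
    · rw [yh_zero, map_one, one_mul]
    · rw [yh_one]
    · have h := congrFun (map_yh (fun e => io S (c e)) (fs S) (Xe X j ξ) (io S z)) i
      rw [fs_Xe] at h
      exact h
    · rw [one_mul]
      rfl
  · rw [← sd_du, map_Ah, du_XT]
    simp only [du_C]
    refine dual_form c X j ξ hj 0 1 (Y1 (fun e => io S (c e)) (Xe X j ξ)) (Y1 c X)
      (fun r => rf_Y1 _ _ r) ?_ ?_ (fun i => ?_) (fun i => ?_)
    · rw [Y1_zero, map_zero, zero_mul]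
    · rw [Y1_one, map_one, one_mul]
    · have h := congrFun (map_Y1 (fun e => io S (c e)) (fs S) (Xe X j ξ)) i
      rw [fs_Xe] at h
      exact h
    · rw [zero_mul, zero_add, one_mul]

end main

end Pool.Agent.Helper94.HK
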