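import Pool.Agent.Helper94.HK.Loc
import Pool.Agent.Helper94.HK.Diff
import Pool.Agent.Helper94.HN.Dir

/-!
# Directional derivatives of the local data (`k + 1` factors)
-/

namespace Pool.Agent.Helper94.HK

open Pool.Agent.Helper28.HN (I aff)
open Pool.Agent.Helper64.HK Pool.Agent.Helper24.HN
open Function

theorem Fh_eq {k m : ℕ} {a : Fin (k + 1) → Fin (m + 1)} {S : Type*} [CommRing S] (c : Ix a → S)
    (X : Fin (k + 1) → I m → S) (z : S) : Fh c X z = Ah c X * z ^ 2 + 2 * Bh c X * z + Ch c X := by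
  have h : yh c X z = fun i => 1 * Y0 c X i + z * Y1 c X i := by
    funext i
    rw [one_mul]
    rfl
  rw [Fh, h, Pf_comb_l, Pf_comb_r, Pf_comb_r, Pf_symm c 0 X (Y1 c X) (Y0 c X)]
  unfold Ah Bh Ch
  ring

variable {p : ℕ} [Fact p.Prime] {k m : ℕ} {a : Fin (k + 1) → Fin (m + 1)}

/-- Substitution of the polynomial line. -/
noncomputable def sub (x v : Fin (k * (m + 1)) → ℤ_[p]) :
    MvPolynomial (Fin (k * (m + 1))) ℤ_[p] →+* Polynomial ℤ_[p] :=
  (MvPolynomial.aeval (R := ℤ_[p]) (fun i => Polynomial.C (x i) + Polynomial.X * Polynomial.C (v i)) :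
      MvPolynomial (Fin (k * (m + 1))) ℤ_[p] →ₐ[ℤ_[p]] Polynomial ℤ_[p]).toRingHom

theorem sub_C (x v : Fin (k * (m + 1)) → ℤ_[p]) (b : ℤ_[p]) :
    sub x v (MvPolynomial.C b) = Polynomial.C b := MvPolynomial.aeval_C _ _

theorem sub_X (x v : Fin (k * (m + 1)) → ℤ_[p]) (i : Fin (k * (m + 1))) :
    sub x v (MvPolynomial.X i) = Polynomial.C (x i) + Polynomial.X * Polynomial.C (v i) :=
  MvPolynomial.aeval_X _ _

theorem sub_ct (l : Fin k) (x : Fin (k * (m + 1)) → ℤ_[p]) (v : Fin (m + 1) → ℤ_[p]) :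
    (fun j i => sub x (em l v) ((ct (tr MvPolynomial.X) :
      Fin (k + 1) → I m → MvPolynomial (Fin (k * (m + 1))) ℤ_[p]) j i)) =
      XT (ct (tr x)) l.succ (Fin.cons 0 v) := by
  rw [map_ct]
  funext j i
  unfold XT
  refine Fin.cases ?_ (fun j => ?_) j
  · rw [update_of_ne (Fin.succ_ne_zero l).symm]
    simp [ct]
  · by_cases h : j = l
    · subst h
      rw [update_self]
      refine Fin.cases ?_ (fun i => ?_) i
      · simp [ct, aff]
      · simp only [ct, Fin.cons_succ, aff, tr, sub_X]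
        congr 3
        have := tr_em j v (j, i)
        rw [if_pos rfl] at this
        exact this
    · rw [update_of_ne fun h' => h (Fin.succ_injective _ h')]
      refine Fin.cases ?_ (fun i => ?_) i
      · simp [ct, aff]
      · simp only [ct, Fin.cons_succ, aff, tr, sub_X]
        have := tr_em l v (j, i)
        rw [if_neg h] at this
        have h2 : em l v (finProdFinEquiv (j, i)) = 0 := this
        rw [h2, map_zero, mul_zero, add_zero]

theorem eval0 (X : Fin (k + 1) → I m → ℤ_[p]) (j : Fin (k + 1)) (ξ : I m → ℤ_[p]) :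
    (fun l i => (Polynomial.evalRingHom (0 : ℤ_[p])) (XT X j ξ l i)) = X := by
  funext l i
  by_cases h : l = j
  · subst h
    simp [XT]
  · simp [XT, update_of_ne h]

section

variable (c : Ix a → ℤ_[p]) (l : Fin k) (x : V p (k * (m + 1))) (v : Fin (m + 1) → ℤ_[p])

theorem sub_AP : sub x (em l v) (AP c) =
    (Mx (fun e => Polynomial.C (c e)) (XT (ct (tr x)) l.succ (Fin.cons 0 v))).det *
      Ah (fun e => Polynomial.C (c e)) (XT (ct (tr x)) l.succ (Fin.cons 0 v)) := by
  rw [AP, map_mul, map_detM, map_Ah, sub_ct]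
  simp only [sub_C]

theorem sub_BP : sub x (em l v) (BP c) =
    (Mx (fun e => Polynomial.C (c e)) (XT (ct (tr x)) l.succ (Fin.cons 0 v))).det *
      (2 * Bh (fun e => Polynomial.C (c e)) (XT (ct (tr x)) l.succ (Fin.cons 0 v))) := by
  rw [BP, map_mul, map_detM, map_mul, map_ofNat, map_Bh, sub_ct]
  simp only [sub_C]

theorem sub_CP : sub x (em l v) (CP c) =
    (Mx (fun e => Polynomial.C (c e)) (XT (ct (tr x)) l.succ (Fin.cons 0 v))).det *
      Ch (fun e => Polynomial.C (c e)) (XT (ct (tr x)) l.succ (Fin.cons 0 v)) := by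
  rw [CP, map_mul, map_detM, map_Ch, sub_ct]
  simp only [sub_C]

theorem dP_sub (P : MvPolynomial (Fin (k * (m + 1))) ℤ_[p]) (x v : Fin (k * (m + 1)) → ℤ_[p]) :
    Pool.Agent.Helper94.HN.dP P x v = (sub x v P).derivative.eval 0 := by
  rw [Pool.Agent.Helper94.HN.dP_apply, ← (Pool.Agent.Helper94.HN.deriv_line P x v).1]
  rfl

theorem eval_D : (Mx (fun e => Polynomial.C (c e))
    (XT (ct (tr x)) l.succ (Fin.cons 0 v))).det.eval 0 = (Mx c (ct (tr x))).det := by
  have h := map_detM (Polynomial.evalRingHom (0 : ℤ_[p])) (fun e => Polynomial.C (c e))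
    (XT (ct (tr x)) l.succ (Fin.cons 0 v))
  rw [eval0] at h
  simp only [Polynomial.coe_evalRingHom, Polynomial.eval_C] at h
  exact h

theorem eval_A : (Ah (fun e => Polynomial.C (c e))
    (XT (ct (tr x)) l.succ (Fin.cons 0 v))).eval 0 = Ah c (ct (tr x)) := by
  have h := map_Ah (Polynomial.evalRingHom (0 : ℤ_[p])) (fun e => Polynomial.C (c e))
    (XT (ct (tr x)) l.succ (Fin.cons 0 v))
  rw [eval0] at h
  simp only [Polynomial.coe_evalRingHom, Polynomial.eval_C] at h
  exact h

theorem eval_F (z : ℤ_[p]) : (Fh (fun e => Polynomial.C (c e))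
    (XT (ct (tr x)) l.succ (Fin.cons 0 v)) (Polynomial.C z)).eval 0 = Fh c (ct (tr x)) z := by
  have h := map_Fh (Polynomial.evalRingHom (0 : ℤ_[p])) (fun e => Polynomial.C (c e))
    (XT (ct (tr x)) l.succ (Fin.cons 0 v)) (Polynomial.C z)
  rw [eval0] at h
  simp only [Polynomial.coe_evalRingHom, Polynomial.eval_C] at h
  exact h

theorem dA_line : (loc c).dA x (em l v) = (Mx c (ct (tr x))).det *
      (Ah (fun e => Polynomial.C (c e)) (XT (ct (tr x)) l.succ (Fin.cons 0 v))).derivative.eval 0 +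
      (Mx (fun e => Polynomial.C (c e)) (XT (ct (tr x)) l.succ (Fin.cons 0 v))).det.derivative.eval 0 *
        Ah c (ct (tr x)) := by
  rw [loc_dA, dP_sub, sub_AP, Polynomial.derivative_mul, Polynomial.eval_add, Polynomial.eval_mul,
    Polynomial.eval_mul, eval_D, eval_A]
  ring

theorem dF_line (z : ℤ_[p]) : (loc c).dF x (em l v) z = (Mx c (ct (tr x))).det *
      (Fh (fun e => Polynomial.C (c e)) (XT (ct (tr x)) l.succ (Fin.cons 0 v))
        (Polynomial.C z)).derivative.eval 0 +
      (Mx (fun e => Polynomial.C (c e)) (XT (ct (tr x)) l.succ (Fin.cons 0 v))).det.derivative.eval 0 *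
        Fh c (ct (tr x)) z := by
  have h : (loc c).dF x (em l v) z = (loc c).dA x (em l v) * z ^ 2 + (loc c).dB x (em l v) * z +
    (loc c).dC x (em l v) := rfl
  have h1 : (loc c).dF x (em l v) z = ((Mx (fun e => Polynomial.C (c e))
      (XT (ct (tr x)) l.succ (Fin.cons 0 v))).det * Fh (fun e => Polynomial.C (c e))
        (XT (ct (tr x)) l.succ (Fin.cons 0 v)) (Polynomial.C z)).derivative.eval 0 := by
    have h2 : (Mx (fun e => Polynomial.C (c e)) (XT (ct (tr x)) l.succ (Fin.cons 0 v))).det *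
        Fh (fun e => Polynomial.C (c e)) (XT (ct (tr x)) l.succ (Fin.cons 0 v)) (Polynomial.C z) =
        sub x (em l v) (AP c) * Polynomial.C (z ^ 2) + sub x (em l v) (BP c) * Polynomial.C z +
          sub x (em l v) (CP c) := by
      rw [sub_AP, sub_BP, sub_CP, Fh_eq, map_pow]
      ring
    have h4 : ∀ (P : Polynomial ℤ_[p]) (b : ℤ_[p]), (P * Polynomial.C b).derivative.eval 0 =
        P.derivative.eval 0 * b := by
      intro P b
      rw [Polynomial.derivative_mul, Polynomial.derivative_C, mul_zero, add_zero, Polynomial.eval_mul,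
        Polynomial.eval_C]
    rw [h2, Polynomial.derivative_add, Polynomial.derivative_add, Polynomial.eval_add,
      Polynomial.eval_add, h4, h4, h, loc_dA, loc_dB, loc_dC, dP_sub, dP_sub, dP_sub]
  rw [h1, Polynomial.derivative_mul, Polynomial.eval_add, Polynomial.eval_mul, Polynomial.eval_mul,
    eval_D, eval_F]
  ring

/-- The relation of the derivatives with `qh`. -/
theorem loc_dir : ∃ d, (∀ z, (loc c).dF x (em l v) z =
      qh c l.succ (ct (tr x)) (Fin.cons 0 v) z + d * Fh c (ct (tr x)) z) ∧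
      (loc c).dA x (em l v) = qa c l.succ (ct (tr x)) (Fin.cons 0 v) + d * Ah c (ct (tr x)) := by
  obtain ⟨d, hd⟩ := diff_F c (ct (tr x)) l.succ (Fin.cons 0 v) (Fin.succ_ne_zero l)
  refine ⟨2 * d + (Mx (fun e => Polynomial.C (c e))
    (XT (ct (tr x)) l.succ (Fin.cons 0 v))).det.derivative.eval 0, fun z => ?_, ?_⟩
  · rw [dF_line]
    have h := (hd z).1
    linear_combination h
  · rw [dA_line]
    have h := (hd 0).2
    linear_combination h

end

end Pool.Agent.Helper94.HK
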