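import Pool.Agent.Helper94.HK.Dir

/-!
# The local data of the chart: the interface (`k + 1` factors)
-/

namespace Pool.Agent.Helper94.HK

open Pool.Agent.Helper28.HN (I aff)
open Pool.Agent.Helper64.HK Pool.Agent.Helper24.HM

/-- The local data. -/
theorem exists_loc {p : ℕ} [Fact p.Prime] {k m : ℕ} {a : Fin (k + 1) → Fin (m + 1)}
    (c : Ix a → ℤ_[p]) : ∃ L : LocM p (k * (m + 1)) (Fin k),
    (∀ x, L.A x = (Mx c (ct (tr x))).det * Ah c (ct (tr x))) ∧
    (∀ x, L.B x = (Mx c (ct (tr x))).det * (2 * Bh c (ct (tr x)))) ∧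
    (∀ x, L.C x = (Mx c (ct (tr x))).det * Ch c (ct (tr x))) ∧
    (∀ l x z, L.xi l x z = em l (vh c l.succ (Xz c (ct (tr x)) z))) ∧
    (∀ l x z, L.psi l x z = 2 * th c l.succ (ct (tr x)) z * psh c l.succ (ct (tr x)) z) ∧
    (∀ l x z, L.kap l x z = th c l.succ (ct (tr x)) z * kah c l.succ (ct (tr x)) z) ∧
    (∀ l x z, psh c l.succ (ct (tr x)) z = 0 → L.sl l x z z =
      2 * th c l.succ (ct (tr x)) z * (psP c l.succ (ct (tr x))).derivative.eval z) ∧
    (∀ l x v, ∃ d, (∀ z, L.dF x (em l v) z =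
        qh c l.succ (ct (tr x)) (Fin.cons 0 v) z + d * Fh c (ct (tr x)) z) ∧
      L.dA x (em l v) = qa c l.succ (ct (tr x)) (Fin.cons 0 v) + d * Ah c (ct (tr x))) :=
  ⟨loc c, loc_A c, loc_B c, loc_C c, loc_xi c, loc_psi c, loc_kap c, loc_sl c, loc_dir c⟩

end Pool.Agent.Helper94.HK
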