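import Mathlib
import Pool.Agent.Helper24.HN.Defs

/-!
# Local data which are different on different residue discs

`glue L ty`: the functions `xi`, `psi`, `kap` of the local data `L (ty z)`, where the type `ty z` of
`z` depends only on the residue class of `z`.
-/

namespace Pool.Agent.Helper94.HK

open Pool.Agent.Helper24.HN

variable {p : ℕ} [Fact p.Prime] {n : ℕ} {κ : Type}

/-- The type of a residue class: the type of the letter in it. -/
noncomputable def tyz {J : Type} (zz : J → ℤ_[p]) (tb : J → κ) (k0 : κ) (z : ℤ_[p]) : κ :=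
  open Classical in
  if h : ∃ b, ‖z - zz b‖ < 1 then tb h.choose else k0

theorem sub_le (a b : ℤ_[p]) : ‖a - b‖ ≤ max ‖a‖ ‖b‖ := by
  rw [sub_eq_add_neg, ← norm_neg b]
  exact PadicInt.nonarchimedean _ _

theorem lt_iff {z z' w : ℤ_[p]} (h : ‖z - z'‖ < 1) : ‖z - w‖ < 1 ↔ ‖z' - w‖ < 1 := by
  constructor
  · intro h1
    have h2 : z' - w = (z - w) - (z - z') := by ring
    rw [h2]
    exact lt_of_le_of_lt (sub_le _ _) (max_lt h1 h)
  · intro h1
    have h2 : z - w = (z' - w) + (z - z') := by ring
    rw [h2]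
    exact lt_of_le_of_lt (PadicInt.nonarchimedean _ _) (max_lt h1 h)

theorem tyz_congr' {J : Type} (zz : J → ℤ_[p]) (tb : J → κ) (k0 : κ) {z z' : ℤ_[p]}
    (h1 : (fun b => ‖z - zz b‖ < 1) = fun b => ‖z' - zz b‖ < 1) :
    tyz zz tb k0 z = tyz zz tb k0 z' := by
  have key : ∀ (P Q : J → Prop), P = Q → ∀ (dP : Decidable (∃ b, P b)) (dQ : Decidable (∃ b, Q b)),
      (if h : ∃ b, P b then tb h.choose else k0) = if h : ∃ b, Q b then tb h.choose else k0 := by
    rintro P Q rfl dP dQ
    by_cases h : ∃ b, P b
    · rw [dif_pos h, dif_pos h]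
    · rw [dif_neg h, dif_neg h]
  exact key _ _ h1 _ _

theorem tyz_congr {J : Type} (zz : J → ℤ_[p]) (tb : J → κ) (k0 : κ) {z z' : ℤ_[p]}
    (h : ‖z - z'‖ < 1) : tyz zz tb k0 z = tyz zz tb k0 z' := by
  have h1 : (fun b => ‖z - zz b‖ < 1) = fun b => ‖z' - zz b‖ < 1 := by
    funext b
    exact propext (lt_iff h)
  exact tyz_congr' zz tb k0 h1

theorem tyz_eq {J : Type} (zz : J → ℤ_[p]) (tb : J → κ) (k0 : κ)
    (hz : ∀ a b, a ≠ b → ‖zz a - zz b‖ = 1) (b : J) {z : ℤ_[p]} (h : ‖z - zz b‖ < 1) :
    tyz zz tb k0 z = tb b := by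
  have h1 : ∃ b, ‖z - zz b‖ < 1 := ⟨b, h⟩
  unfold tyz
  rw [dif_pos h1]
  congr 1
  by_contra hne
  have h2 := (lt_iff h).1 h1.choose_spec
  have h3 := hz b h1.choose (Ne.symm hne)
  rw [h3] at h2
  exact lt_irrefl _ h2

/-- The difference quotient across two residue classes, and inside one. -/
noncomputable def gsl (L : κ → Loc p n) (ty : ℤ_[p] → κ) (x : V p n) (z w : ℤ_[p]) : ℤ_[p] :=
  open Classical in
  if ty z = ty w then (L (ty z)).sl x z w else
    ((L (ty z)).psi x z - (L (ty w)).psi x w) * Ring.inverse (z - w)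

theorem norm_one_of_ne {ty : ℤ_[p] → κ} (hty : ∀ z z', ‖z - z'‖ < 1 → ty z = ty z') {z w : ℤ_[p]}
    (h : ty z ≠ ty w) : ‖z - w‖ = 1 := by
  by_contra h1
  exact h (hty z w (lt_of_le_of_ne (PadicInt.norm_le_one _) h1))

theorem inv_lip {a b : ℤ_[p]} (ha : IsUnit a) (hb : IsUnit b) :
    ‖Ring.inverse a - Ring.inverse b‖ ≤ ‖a - b‖ := by
  have h : Ring.inverse a - Ring.inverse b = Ring.inverse a * (b - a) * Ring.inverse b := by
    have h1 := Ring.inverse_mul_cancel a ha
    have h2 := Ring.mul_inverse_cancel b hb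
    linear_combination Ring.inverse b * h1 - Ring.inverse a * h2
  rw [h, norm_mul, norm_mul, norm_sub_rev b a]
  calc ‖Ring.inverse a‖ * ‖a - b‖ * ‖Ring.inverse b‖ ≤ 1 * ‖a - b‖ * 1 := by
        refine mul_le_mul (mul_le_mul_of_nonneg_right (PadicInt.norm_le_one _) (norm_nonneg _))
          (PadicInt.norm_le_one _) (norm_nonneg _) ?_
        rw [one_mul]
        exact norm_nonneg _
    _ = ‖a - b‖ := by rw [one_mul, mul_one]

theorem psi_lip (L : Loc p n) (x x' : V p n) (z z' : ℤ_[p]) :
    ‖L.psi x z - L.psi x' z'‖ ≤ max ‖x - x'‖ ‖z - z'‖ := by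
  have h : L.psi x z - L.psi x' z' = (L.psi x z - L.psi x' z) + (L.psi x' z - L.psi x' z') := by ring
  rw [h]
  refine (PadicInt.nonarchimedean _ _).trans (max_le_max (L.hpsi x x' z) ?_)
  rw [L.hsl, norm_mul]
  exact mul_le_of_le_one_right (norm_nonneg _) (PadicInt.norm_le_one _)

/-- Local data which depend on the residue class of `z`. -/
noncomputable def glue (L : κ → Loc p n) (ty : ℤ_[p] → κ)
    (hty : ∀ z z', ‖z - z'‖ < 1 → ty z = ty z') (k0 : κ) : Loc p n where
  A := (L k0).A
  B := (L k0).B
  C := (L k0).C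
  dA := (L k0).dA
  dB := (L k0).dB
  dC := (L k0).dC
  xi x z := (L (ty z)).xi x z
  psi x z := (L (ty z)).psi x z
  kap x z := (L (ty z)).kap x z
  sl x z w := gsl L ty x z w
  hA := (L k0).hA
  hB := (L k0).hB
  hC := (L k0).hC
  hdA := (L k0).hdA
  hdB := (L k0).hdB
  hdC := (L k0).hdC
  hxi x x' z z' := by
    rcases lt_or_eq_of_le (PadicInt.norm_le_one (z - z')) with h | h
    · rw [hty z z' h]
      exact (L _).hxi x x' z z'
    · refine le_trans ?_ (le_max_right _ _)
      rw [h]
      refine (pi_norm_le_iff_of_nonneg zero_le_one).2 fun i => PadicInt.norm_le_one _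
  hpsi x x' z := (L _).hpsi x x' z
  hkap x x' z z' := by
    rcases lt_or_eq_of_le (PadicInt.norm_le_one (z - z')) with h | h
    · rw [hty z z' h]
      exact (L _).hkap x x' z z'
    · refine le_trans ?_ (le_max_right _ _)
      rw [h]
      exact PadicInt.norm_le_one _
  hsl x z w := by
    unfold gsl
    by_cases h : ty z = ty w
    · rw [if_pos h, ← h]
      exact (L _).hsl x z w
    · rw [if_neg h]
      have h1 := Ring.mul_inverse_cancel (z - w) (PadicInt.isUnit_iff.2 (norm_one_of_ne hty h))
      linear_combination (-((L (ty z)).psi x z - (L (ty w)).psi x w)) * h1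
  hsl' x x' z z' w w' := by
    rcases lt_or_eq_of_le (PadicInt.norm_le_one (z - z')) with h | h
    · rcases lt_or_eq_of_le (PadicInt.norm_le_one (w - w')) with h' | h'
      · unfold gsl
        rw [← hty z z' h, ← hty w w' h']
        by_cases h1 : ty z = ty w
        · rw [if_pos h1, if_pos h1]
          exact (L _).hsl' x x' z z' w w'
        · rw [if_neg h1, if_neg h1]
          have hu := PadicInt.isUnit_iff.2 (norm_one_of_ne hty h1)
          have h1' : ty z' ≠ ty w' := by
            rw [← hty z z' h, ← hty w w' h']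
            exact h1
          have hu' := PadicInt.isUnit_iff.2 (norm_one_of_ne hty h1')
          have e : ((L (ty z)).psi x z - (L (ty w)).psi x w) * Ring.inverse (z - w) -
              ((L (ty z)).psi x' z' - (L (ty w)).psi x' w') * Ring.inverse (z' - w') =
              (((L (ty z)).psi x z - (L (ty z)).psi x' z') -
                ((L (ty w)).psi x w - (L (ty w)).psi x' w')) * Ring.inverse (z - w) +
              ((L (ty z)).psi x' z' - (L (ty w)).psi x' w') *
                (Ring.inverse (z - w) - Ring.inverse (z' - w')) := by ring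
          rw [e]
          refine (PadicInt.nonarchimedean _ _).trans (max_le ?_ ?_)
          · rw [norm_mul]
            refine (mul_le_of_le_one_right (norm_nonneg _) (PadicInt.norm_le_one _)).trans ?_
            refine (sub_le _ _).trans (max_le ?_ ?_)
            · exact (psi_lip _ x x' z z').trans
                (max_le_max le_rfl (le_max_left _ _))
            · exact (psi_lip _ x x' w w').trans
                (max_le_max le_rfl (le_max_right _ _))
          · rw [norm_mul]
            refine (mul_le_of_le_one_left (norm_nonneg _) (PadicInt.norm_le_one _)).trans ?_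
            refine (inv_lip hu hu').trans ?_
            have e2 : z - w - (z' - w') = (z - z') - (w - w') := by ring
            rw [e2]
            exact (sub_le _ _).trans (le_max_right _ _)
      · refine (PadicInt.norm_le_one _).trans ?_
        rw [← h']
        exact (le_max_right _ _).trans (le_max_right _ _)
    · refine (PadicInt.norm_le_one _).trans ?_
      rw [← h]
      exact (le_max_left _ _).trans (le_max_right _ _)

theorem glue_sl (L : κ → Loc p n) (ty : ℤ_[p] → κ)
    (hty : ∀ z z', ‖z - z'‖ < 1 → ty z = ty z') (k0 : κ) (x : V p n) (z : ℤ_[p]) :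
    (glue L ty hty k0).sl x z z = (L (ty z)).sl x z z := by
  show gsl L ty x z z = _
  unfold gsl
  rw [if_pos rfl]

end Pool.Agent.Helper94.HK
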