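import Pool.Agent.Helper64.HK.Defs

/-!
# The coordinates of the factors `t` as one vector
-/

namespace Pool.Agent.Helper94.HK

variable {k m : ℕ} {S : Type*}

/-- The coordinates, indexed by the factor and the coordinate. -/
def tr (x : Fin (k * (m + 1)) → S) : Fin k × Fin (m + 1) → S := fun q => x (finProdFinEquiv q)

/-- A vector in the factor `l`. -/
def em [Zero S] (l : Fin k) (v : Fin (m + 1) → S) : Fin (k * (m + 1)) → S :=
  fun i => if (finProdFinEquiv.symm i).1 = l then v (finProdFinEquiv.symm i).2 else 0

theorem tr_em [Zero S] (l : Fin k) (v : Fin (m + 1) → S) (q : Fin k × Fin (m + 1)) :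
    tr (em l v) q = if q.1 = l then v q.2 else 0 := by
  unfold tr em
  rw [Equiv.symm_apply_apply]

theorem tr_injective : Function.Injective (tr : (Fin (k * (m + 1)) → S) → _) := by
  intro x y h
  funext i
  have := congrFun h (finProdFinEquiv.symm i)
  simpa only [tr, Equiv.apply_symm_apply] using this

end Pool.Agent.Helper94.HK
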