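import Pool.Agent.Helper94.HK.Nat
import Pool.Agent.Helper94.HK.Tr
import Pool.Agent.Helper94.HN.Lip
import Pool.Agent.Helper24.HM.Defs

/-!
# The local data of the chart (`k + 1` factors)
-/

namespace Pool.Agent.Helper94.HK

open Pool.Agent.Helper28.HN (I aff)
open Pool.Agent.Helper64.HK Pool.Agent.Helper24.HN Pool.Agent.Helper94.HN
open Pool.Agent.Helper24.HM (LocM)

variable {p : ℕ} [Fact p.Prime] {k m : ℕ} {a : Fin (k + 1) → Fin (m + 1)}

/-- The leading coefficient as a polynomial. -/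
noncomputable def AP (c : Ix a → ℤ_[p]) : MvPolynomial (Fin (k * (m + 1))) ℤ_[p] :=
  (Mx (fun e => MvPolynomial.C (c e)) (ct (tr MvPolynomial.X))).det *
    Ah (fun e => MvPolynomial.C (c e)) (ct (tr MvPolynomial.X))

/-- The middle coefficient as a polynomial. -/
noncomputable def BP (c : Ix a → ℤ_[p]) : MvPolynomial (Fin (k * (m + 1))) ℤ_[p] :=
  (Mx (fun e => MvPolynomial.C (c e)) (ct (tr MvPolynomial.X))).det *
    (2 * Bh (fun e => MvPolynomial.C (c e)) (ct (tr MvPolynomial.X)))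

/-- The constant coefficient as a polynomial. -/
noncomputable def CP (c : Ix a → ℤ_[p]) : MvPolynomial (Fin (k * (m + 1))) ℤ_[p] :=
  (Mx (fun e => MvPolynomial.C (c e)) (ct (tr MvPolynomial.X))).det *
    Ch (fun e => MvPolynomial.C (c e)) (ct (tr MvPolynomial.X))

theorem eval_ct (x : Fin (k * (m + 1)) → ℤ_[p]) :
    (fun j i => MvPolynomial.eval x ((ct (tr MvPolynomial.X) :
      Fin (k + 1) → I m → MvPolynomial (Fin (k * (m + 1))) ℤ_[p]) j i)) = ct (tr x) := by
  rw [map_ct]
  simp only [tr, MvPolynomial.eval_X]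
  rfl

theorem eval_AP (c : Ix a → ℤ_[p]) (x : Fin (k * (m + 1)) → ℤ_[p]) :
    MvPolynomial.eval x (AP c) = (Mx c (ct (tr x))).det * Ah c (ct (tr x)) := by
  rw [AP, map_mul, map_detM, map_Ah]
  simp only [MvPolynomial.eval_C, eval_ct]

theorem eval_BP (c : Ix a → ℤ_[p]) (x : Fin (k * (m + 1)) → ℤ_[p]) :
    MvPolynomial.eval x (BP c) = (Mx c (ct (tr x))).det * (2 * Bh c (ct (tr x))) := by
  rw [BP, map_mul, map_detM, map_mul, map_Bh, map_ofNat]
  simp only [MvPolynomial.eval_C, eval_ct]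

theorem eval_CP (c : Ix a → ℤ_[p]) (x : Fin (k * (m + 1)) → ℤ_[p]) :
    MvPolynomial.eval x (CP c) = (Mx c (ct (tr x))).det * Ch c (ct (tr x)) := by
  rw [CP, map_mul, map_detM, map_Ch]
  simp only [MvPolynomial.eval_C, eval_ct]

/-- The generic point of the chart. -/
noncomputable def tP : Fin (k + 1) → I m → MvPolynomial (Option (Fin (k * (m + 1)))) ℤ_[p] :=
  ct (tr fun i => MvPolynomial.X (some i))

theorem eval_tP (x : Fin (k * (m + 1)) → ℤ_[p]) (z : ℤ_[p]) :
    (fun j i => MvPolynomial.eval (fun i => Option.elim i z x)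
      ((tP : Fin (k + 1) → I m → MvPolynomial (Option (Fin (k * (m + 1)))) ℤ_[p]) j i)) =
      ct (tr x) := by
  rw [tP, map_ct]
  simp only [tr, MvPolynomial.eval_X, Option.elim]
  rfl

/-- The direction as a polynomial. -/
noncomputable def xiP (c : Ix a → ℤ_[p]) (l : Fin (k + 1)) (i : Fin (m + 1)) :
    MvPolynomial (Option (Fin (k * (m + 1)))) ℤ_[p] :=
  vh (fun e => MvPolynomial.C (c e)) l
    (Xz (fun e => MvPolynomial.C (c e)) tP (MvPolynomial.X none)) i

theorem eval_xiP (c : Ix a → ℤ_[p]) (l : Fin (k + 1)) (x : Fin (k * (m + 1)) → ℤ_[p]) (z : ℤ_[p])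
    (i : Fin (m + 1)) : MvPolynomial.eval (fun i => Option.elim i z x) (xiP c l i) =
      vh c l (Xz c (ct (tr x)) z) i := by
  have h := congrFun (map_vh (MvPolynomial.eval (fun i => Option.elim i z x))
    (fun e => MvPolynomial.C (c e)) l
    (Xz (fun e => MvPolynomial.C (c e)) tP (MvPolynomial.X none))) i
  rw [map_Xz, eval_tP] at h
  simp only [MvPolynomial.eval_C, MvPolynomial.eval_X, Option.elim] at h
  exact h

/-- The linear coefficient as a polynomial. -/
noncomputable def psiP (c : Ix a → ℤ_[p]) (l : Fin (k + 1)) :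
    MvPolynomial (Option (Fin (k * (m + 1)))) ℤ_[p] :=
  2 * th (fun e => MvPolynomial.C (c e)) l tP (MvPolynomial.X none) *
    psh (fun e => MvPolynomial.C (c e)) l tP (MvPolynomial.X none)

theorem eval_psiP (c : Ix a → ℤ_[p]) (l : Fin (k + 1)) (x : Fin (k * (m + 1)) → ℤ_[p]) (z : ℤ_[p]) :
    MvPolynomial.eval (fun i => Option.elim i z x) (psiP c l) =
      2 * th c l (ct (tr x)) z * psh c l (ct (tr x)) z := by
  rw [psiP, map_mul, map_mul, map_psh, map_th, map_ofNat, eval_tP]
  simp only [MvPolynomial.eval_C, MvPolynomial.eval_X, Option.elim]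

/-- The quadratic coefficient as a polynomial. -/
noncomputable def kapP (c : Ix a → ℤ_[p]) (l : Fin (k + 1)) :
    MvPolynomial (Option (Fin (k * (m + 1)))) ℤ_[p] :=
  th (fun e => MvPolynomial.C (c e)) l tP (MvPolynomial.X none) *
    kah (fun e => MvPolynomial.C (c e)) l tP (MvPolynomial.X none)

theorem eval_kapP (c : Ix a → ℤ_[p]) (l : Fin (k + 1)) (x : Fin (k * (m + 1)) → ℤ_[p]) (z : ℤ_[p]) :
    MvPolynomial.eval (fun i => Option.elim i z x) (kapP c l) =
      th c l (ct (tr x)) z * kah c l (ct (tr x)) z := by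
  rw [kapP, map_mul, map_kah, map_th, eval_tP]
  simp only [MvPolynomial.eval_C, MvPolynomial.eval_X, Option.elim]

/-- `th` as a polynomial in `z`. -/
noncomputable def thP {S : Type*} [CommRing S] (c : Ix a → S) (l : Fin (k + 1))
    (X : Fin (k + 1) → I m → S) : Polynomial S :=
  th (fun e => Polynomial.C (c e)) l (fun j i => Polynomial.C (X j i)) Polynomial.X

theorem thP_map {S S' : Type*} [CommRing S] [CommRing S'] (φ : S →+* S') (c : Ix a → S)
    (l : Fin (k + 1)) (X : Fin (k + 1) → I m → S) :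
    (thP c l X).map φ = thP (fun e => φ (c e)) l (fun j i => φ (X j i)) := by
  have h := map_th (Polynomial.mapRingHom φ) (fun e => Polynomial.C (c e)) l
    (fun j i => Polynomial.C (X j i)) Polynomial.X
  simpa only [thP, Polynomial.coe_mapRingHom, Polynomial.map_C, Polynomial.map_X] using h

theorem thP_eval {S : Type*} [CommRing S] (c : Ix a → S) (l : Fin (k + 1))
    (X : Fin (k + 1) → I m → S) (z : S) : (thP c l X).eval z = th c l X z := by
  have h := map_th (Polynomial.evalRingHom z) (fun e => Polynomial.C (c e)) l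
    (fun j i => Polynomial.C (X j i)) Polynomial.X
  simpa only [thP, Polynomial.coe_evalRingHom, Polynomial.eval_C, Polynomial.eval_X] using h

/-- The product over the generic point, with two more variables. -/
noncomputable def gP (c : Ix a → ℤ_[p]) (l : Fin (k + 1)) :
    Polynomial (MvPolynomial (Fin (k * (m + 1)) ⊕ Fin 2) ℤ_[p]) :=
  thP (fun e => MvPolynomial.C (c e)) l (ct (tr fun i => MvPolynomial.X (.inl i))) *
  psP (fun e => MvPolynomial.C (c e)) l (ct (tr fun i => MvPolynomial.X (.inl i)))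

/-- The difference quotient. -/
noncomputable def slP (c : Ix a → ℤ_[p]) (l : Fin (k + 1)) :
    MvPolynomial (Fin (k * (m + 1)) ⊕ Fin 2) ℤ_[p] :=
  ((gP c l).evalSubFactor (MvPolynomial.X (.inr 0)) (MvPolynomial.X (.inr 1))).1

/-- Evaluation. -/
noncomputable def ev (x : Fin (k * (m + 1)) → ℤ_[p]) (z w : ℤ_[p]) :
    MvPolynomial (Fin (k * (m + 1)) ⊕ Fin 2) ℤ_[p] →+* ℤ_[p] :=
  MvPolynomial.eval (Sum.elim x ![z, w])

theorem ev_ct (x : Fin (k * (m + 1)) → ℤ_[p]) (z w : ℤ_[p]) :
    (fun j i => ev x z w ((ct (tr fun i => MvPolynomial.X (.inl i)) :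
      Fin (k + 1) → I m → MvPolynomial (Fin (k * (m + 1)) ⊕ Fin 2) ℤ_[p]) j i)) = ct (tr x) := by
  rw [map_ct]
  simp only [ev, tr, MvPolynomial.eval_X, Sum.elim_inl]
  rfl

theorem map_gP (c : Ix a → ℤ_[p]) (l : Fin (k + 1)) (x : Fin (k * (m + 1)) → ℤ_[p])
    (z w : ℤ_[p]) : (gP c l).map (ev x z w) = thP c l (ct (tr x)) * psP c l (ct (tr x)) := by
  rw [gP, Polynomial.map_mul, map_psP, thP_map, ev_ct]
  simp only [ev, MvPolynomial.eval_C]

theorem ev_z (x : Fin (k * (m + 1)) → ℤ_[p]) (z w : ℤ_[p]) :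
    ev x z w (MvPolynomial.X (.inr 0)) = z := by
  simp [ev]

theorem ev_w (x : Fin (k * (m + 1)) → ℤ_[p]) (z w : ℤ_[p]) :
    ev x z w (MvPolynomial.X (.inr 1)) = w := by
  simp [ev]

theorem slP_spec (c : Ix a → ℤ_[p]) (l : Fin (k + 1)) (x : Fin (k * (m + 1)) → ℤ_[p])
    (z w : ℤ_[p]) : th c l (ct (tr x)) z * psh c l (ct (tr x)) z -
      th c l (ct (tr x)) w * psh c l (ct (tr x)) w = ev x z w (slP c l) * (z - w) := by
  have h := congrArg (ev x z w)
    ((gP c l).evalSubFactor (MvPolynomial.X (.inr 0)) (MvPolynomial.X (.inr 1))).2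
  have h1 : ∀ b, ev x z w ((gP c l).eval b) =
      (thP c l (ct (tr x)) * psP c l (ct (tr x))).eval (ev x z w b) := by
    intro b
    rw [← map_gP c l x z w, Polynomial.eval_map, Polynomial.eval₂_hom]
  rw [map_sub, h1, h1, ev_z, ev_w, Polynomial.eval_mul, Polynomial.eval_mul, psP_eval, psP_eval,
    thP_eval, thP_eval, map_mul, map_sub, ev_z, ev_w] at h
  exact h

theorem slP_diag (c : Ix a → ℤ_[p]) (l : Fin (k + 1)) (x : Fin (k * (m + 1)) → ℤ_[p])
    (z : ℤ_[p]) : ev x z z (slP c l) =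
      (thP c l (ct (tr x)) * psP c l (ct (tr x))).derivative.eval z := by
  set r : MvPolynomial (Fin (k * (m + 1)) ⊕ Fin 2) ℤ_[p] := MvPolynomial.X (.inr 0) with hr
  set b : MvPolynomial (Fin (k * (m + 1)) ⊕ Fin 2) ℤ_[p] := MvPolynomial.X (.inr 1) with hb
  have hab : r - b ≠ 0 := by
    rw [sub_ne_zero]
    intro h
    have := MvPolynomial.X_injective h
    simp at this
  have h : (gP c l).eval r - (gP c l).eval b = slP c l * (r - b) := ((gP c l).evalSubFactor r b).2
  obtain ⟨q, hq⟩ := (gP c l).binomExpansion b (r - b)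
  rw [add_sub_cancel] at hq
  have h2 : slP c l = (gP c l).derivative.eval b + q * (r - b) := by
    have h3 : (slP c l - ((gP c l).derivative.eval b + q * (r - b))) * (r - b) = 0 := by
      rw [hq] at h
      linear_combination (-1 : MvPolynomial (Fin (k * (m + 1)) ⊕ Fin 2) ℤ_[p]) * h
    rcases mul_eq_zero.1 h3 with h4 | h4
    · exact sub_eq_zero.1 h4
    · exact absurd h4 hab
  have h5 : ev x z z ((gP c l).derivative.eval b) =
      (thP c l (ct (tr x)) * psP c l (ct (tr x))).derivative.eval z := by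
    have h6 : (thP c l (ct (tr x)) * psP c l (ct (tr x))).derivative =
        (gP c l).derivative.map (ev x z z) := by
      rw [← map_gP c l x z z, Polynomial.derivative_map]
    have h7 := Polynomial.eval₂_hom (p := (gP c l).derivative) (ev x z z) b
    rw [hb, ev_w, ← hb] at h7
    rw [h6, Polynomial.eval_map, h7]
  rw [h2, map_add, map_mul, map_sub, h5, hr, hb, ev_z, ev_w, sub_self, mul_zero, add_zero]

theorem norm_le_sub {σ : Type*} [Fintype σ] {x x' : σ → ℤ_[p]} (z : ℤ_[p])
    (P : MvPolynomial (Option σ) ℤ_[p]) :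
    ‖MvPolynomial.eval (fun i => Option.elim i z x) P -
      MvPolynomial.eval (fun i => Option.elim i z x') P‖ ≤ ‖x - x'‖ := by
  refine (poly_lip_option P x x' z z).trans ?_
  rw [sub_self, norm_zero]
  exact max_le le_rfl (norm_nonneg _)

/-- The local data. -/
noncomputable def loc (c : Ix a → ℤ_[p]) : LocM p (k * (m + 1)) (Fin k) where
  A u := (Mx c (ct (tr u))).det * Ah c (ct (tr u))
  B u := (Mx c (ct (tr u))).det * (2 * Bh c (ct (tr u)))
  C u := (Mx c (ct (tr u))).det * Ch c (ct (tr u))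
  dA u := dP (AP c) u
  dB u := dP (BP c) u
  dC u := dP (CP c) u
  xi l u z := em l (vh c l.succ (Xz c (ct (tr u)) z))
  psi l u z := 2 * th c l.succ (ct (tr u)) z * psh c l.succ (ct (tr u)) z
  kap l u z := th c l.succ (ct (tr u)) z * kah c l.succ (ct (tr u)) z
  sl l u z w := 2 * ev u z w (slP c l.succ)
  hA x h := by
    rw [← eval_AP, ← eval_AP]
    exact dP_taylor _ _ _
  hB x h := by
    rw [← eval_BP, ← eval_BP]
    exact dP_taylor _ _ _
  hC x h := by
    rw [← eval_CP, ← eval_CP]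
    exact dP_taylor _ _ _
  hdA x h v := dP_lip _ _ _ _
  hdB x h v := dP_lip _ _ _ _
  hdC x h v := dP_lip _ _ _ _
  hxi l x x' z z' := by
    refine (pi_norm_le_iff_of_nonneg (le_max_of_le_left (norm_nonneg _))).2 fun i => ?_
    rw [Pi.sub_apply]
    unfold em
    split_ifs with h
    · rw [← eval_xiP, ← eval_xiP]
      exact poly_lip_option _ _ _ _ _
    · rw [sub_self, norm_zero]
      exact le_max_of_le_left (norm_nonneg _)
  hpsi l x x' z := by
    rw [← eval_psiP, ← eval_psiP]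
    exact norm_le_sub _ _
  hkap l x x' z z' := by
    rw [← eval_kapP, ← eval_kapP]
    exact poly_lip_option _ _ _ _ _
  hsl l x z w := by
    have h := slP_spec c l.succ x z w
    linear_combination 2 * h
  hsl' l x x' z z' w w' := by
    rw [← mul_sub, norm_mul]
    calc ‖(2 : ℤ_[p])‖ * ‖ev x z w (slP c l.succ) - ev x' z' w' (slP c l.succ)‖
        ≤ 1 * max ‖x - x'‖ (max ‖z - z'‖ ‖w - w'‖) := by
          refine mul_le_mul (PadicInt.norm_le_one _) ?_ (norm_nonneg _) zero_le_one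
          refine (poly_lip_sum (slP c l.succ) x x' ![z, w] ![z', w']).trans (max_le_max le_rfl ?_)
          refine (pi_norm_le_iff_of_nonneg (le_max_of_le_left (norm_nonneg _))).2 fun i => ?_
          fin_cases i
          · simp
          · simp
      _ = _ := one_mul _

theorem loc_A (c : Ix a → ℤ_[p]) (u : V p (k * (m + 1))) :
    (loc c).A u = (Mx c (ct (tr u))).det * Ah c (ct (tr u)) := rfl
theorem loc_B (c : Ix a → ℤ_[p]) (u : V p (k * (m + 1))) :
    (loc c).B u = (Mx c (ct (tr u))).det * (2 * Bh c (ct (tr u))) := rfl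
theorem loc_C (c : Ix a → ℤ_[p]) (u : V p (k * (m + 1))) :
    (loc c).C u = (Mx c (ct (tr u))).det * Ch c (ct (tr u)) := rfl
theorem loc_xi (c : Ix a → ℤ_[p]) (l : Fin k) (u : V p (k * (m + 1))) (z : ℤ_[p]) :
    (loc c).xi l u z = em l (vh c l.succ (Xz c (ct (tr u)) z)) := rfl
theorem loc_psi (c : Ix a → ℤ_[p]) (l : Fin k) (u : V p (k * (m + 1))) (z : ℤ_[p]) :
    (loc c).psi l u z = 2 * th c l.succ (ct (tr u)) z * psh c l.succ (ct (tr u)) z := rfl
theorem loc_kap (c : Ix a → ℤ_[p]) (l : Fin k) (u : V p (k * (m + 1))) (z : ℤ_[p]) :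
    (loc c).kap l u z = th c l.succ (ct (tr u)) z * kah c l.succ (ct (tr u)) z := rfl
theorem loc_sl (c : Ix a → ℤ_[p]) (l : Fin k) (u : V p (k * (m + 1))) (z : ℤ_[p])
    (h : psh c l.succ (ct (tr u)) z = 0) :
    (loc c).sl l u z z = 2 * th c l.succ (ct (tr u)) z *
      (psP c l.succ (ct (tr u))).derivative.eval z := by
  have h1 : (loc c).sl l u z z = 2 * ev u z z (slP c l.succ) := rfl
  rw [h1, slP_diag, Polynomial.derivative_mul, Polynomial.eval_add, Polynomial.eval_mul,
    Polynomial.eval_mul, psP_eval, thP_eval, h]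
  ring
theorem loc_dA (c : Ix a → ℤ_[p]) (u : V p (k * (m + 1))) : (loc c).dA u = dP (AP c) u := rfl
theorem loc_dB (c : Ix a → ℤ_[p]) (u : V p (k * (m + 1))) : (loc c).dB u = dP (BP c) u := rfl
theorem loc_dC (c : Ix a → ℤ_[p]) (u : V p (k * (m + 1))) : (loc c).dC u = dP (CP c) u := rfl

end Pool.Agent.Helper94.HK
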